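import Pool.Agent.H.MP_01d06f_an.B

namespace Pool.Agent.Results.MP_01d06f_an.Yes
open MeasureTheory Set
open scoped ENNReal

/-- The Radon–Nikodym property. -/
def RNP (Y : Type) [NormedAddCommGroup Y] [NormedSpace ℝ Y] : Prop :=
  ∀ (Ω' : Type) [MeasurableSpace Ω'] (ν : Measure Ω') [IsFiniteMeasure ν] (m : VectorMeasure Ω' Y),
    (∀ s, MeasurableSet s → ν s = 0 → m s = 0) → m.variation univ < ⊤ →
      ∃ f, Integrable f ν ∧ ∀ s, MeasurableSet s → m s = ∫ t in s, f t ∂ν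

variable {Ω : Type} [MeasurableSpace Ω]

def NonAtomic (μ : Measure Ω) : Prop :=
  ∀ A, MeasurableSet A → 0 < μ A → ∃ B ⊆ A, MeasurableSet B ∧ 0 < μ B ∧ μ B < μ A

section
variable {X : Type} [NormedAddCommGroup X] {μ : Measure Ω} {p : ℝ≥0∞}

/-- The function representing a class. -/
noncomputable def fn (f : Lp X p μ) : Ω → X := f

/-- The norm of `L^p(μ, X)`. -/
noncomputable def nrm (f : Lp X p μ) : ℝ := ‖f‖
end

/-- Every element of `L^p(μ, X)` attains its norm on the unit ball of `L^q(μ, Y)`. -/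
def Attains {𝕜 X Y : Type} [RCLike 𝕜] [NormedAddCommGroup X] [NormedAddCommGroup Y]
    (ev : Y → X → 𝕜) (μ : Measure Ω) (p q : ℝ≥0∞) : Prop :=
  ∀ f : Lp X p μ, ∃ g : Lp Y q μ, nrm g ≤ 1 ∧ ∫ t, ev (fn g t) (fn f t) ∂μ = (nrm f : ℝ)

theorem result (𝕜 X Ω : Type) [RCLike 𝕜] [NormedAddCommGroup X] [NormedSpace 𝕜 X] [CompleteSpace X]
    [MeasurableSpace Ω] (μ : Measure Ω) [IsProbabilityMeasure μ] (hμ : NonAtomic μ)
    (p q : ℝ≥0∞) (hp : 1 ≤ p) (hpq : p⁻¹ + q⁻¹ = 1)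
    (h : Attains (fun (y : StrongDual 𝕜 X) (x : X) => y x) μ p q) : RNP (StrongDual 𝕜 X) :=
  haveI : Fact (1 ≤ p) := ⟨hp⟩
  haveI : p.HolderConjugate q := ⟨by simpa using hpq⟩
  haveI : q.HolderConjugate p := ENNReal.HolderConjugate.symm
  haveI : Fact (1 ≤ q) := ⟨ENNReal.HolderConjugate.one_le q p⟩
  H.MP_01d06f_an.main hμ h

end Pool.Agent.Results.MP_01d06f_an.Yes
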